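import Mathlib
import Pool.Agent.helper58.FI.DefsC
import Pool.Agent.helper12.FI.DefsQ

/-!
# Project fi3 (MP_baa4d7_al): blocks with abelian defect group and semi-free inertial action. Working definitions

Notation of project fi: `cz nz cc cv Mcong` (DI), `IntAt InM Small Setup PEl PReg Cz CF Sf eS BC dl Blk` (GR), `SB Bl TT DefL
Rt Good ev mt dd` (`helper12/FI/Defs`), `cjS cjF NCh BlkD BlC CyS` (`helper58/FI/DefsC`), `Cen Zc EE iL` (`helper12/FI/DefsQ`).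
-/

set_option autoImplicit false

namespace Pool.Agent.FI3

open Pool.Agent.helper58.DC Pool.Agent.DI Pool.Agent.GR Pool.Agent.OB Pool.Agent.DR Pool.Agent.FI

section

variable {G : Type} [Group G]

/-- `Y = C_D(I)`: the elements of `D` which commute with all elements of `TT M D θ`. -/
def YY (M : Ideal (integralClosure ℤ ℂ)) (D : Subgroup G) (θ : G → ℂ) : Subgroup G :=
  D ⊓ Subgroup.centralizer (TT M D θ : Set G)

/-- The inertial quotient acts semi-freely on `D`: `C_D(t) = Y` for the `t` not in `C_G(D)`. -/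
def SFree (M : Ideal (integralClosure ℤ ℂ)) (D : Subgroup G) (θ : G → ℂ) : Prop :=
  ∀ t ∈ TT M D θ, ∀ u ∈ D, t * u = u * t → u ∈ YY M D θ ∨ t ∈ cz D

/-- The order of the inertial quotient. -/
noncomputable def iI (M : Ideal (integralClosure ℤ ℂ)) (D : Subgroup G) (θ : G → ℂ) : ℕ :=
  (cz D).relIndex (TT M D θ)

/-- The standing hypotheses. -/
structure Lo3 (p : ℕ) (M : Ideal (integralClosure ℤ ℂ)) (D : Subgroup G) (x : G) (θ χ : G → ℂ) :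
    Prop where
  rt : Rt p M D x θ χ
  sfr : SFree M D θ
  ny : ¬ D ≤ YY M D θ
  cyc : CyS (cz D) (TT M D θ)
  bet : ¬ p ∣ (cz D).relIndex (TT M D θ)
  con : ∀ Q : Subgroup G, IsPGroup p Q → ∀ ψ ∈ IrrOn (cz Q), Induces M ψ χ →
    ∃ g : G, cjS g Q ≤ D ∧ SB M (cz (cjS g Q)) θ (cjF g ψ)
  cnj : ∀ P ≤ D, ∀ ψ ∈ IrrOn (cz P), SB M (cz P) θ ψ → ∀ D₁ : Subgroup G, IsPGroup p D₁ →
    P ≤ D₁ → Nat.card D₁ = Nat.card D → ∀ θ₁ ∈ IrrOn (cz D₁), SB M (cz P) θ₁ ψ →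
    ∃ l ∈ cz P, cjS l D₁ = D ∧ SB M (cz D) (cjF l θ₁) θ
  dfl : ∀ P ≤ D, ∀ ψ ∈ IrrOn (cz P), SB M (cz P) θ ψ → ∃ x' ∈ cz D, DefL p M (cz P) ψ D x'
  eqr : ∀ P ≤ D, ∀ y ∈ cz P, PEl p y → ∀ z ∈ Cz (cz P) y,
    InM M (eS (cz P) (Bl M (cz P) θ) z - eS (Cz (cz P) y) (BlC M (cz P) θ y) z)

/-- The standing hypotheses, and the blocks `b(θ)^(C(P))`, `P ≤ D` not contained in `Y`, are good. -/
structure Lg3 (p : ℕ) (M : Ideal (integralClosure ℤ ℂ)) (D : Subgroup G) (x : G) (θ χ : G → ℂ) :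
    Prop where
  lo : Lo3 p M D x θ χ
  good : ∀ P ≤ D, ¬ P ≤ YY M D θ → Good p M D (cz P) θ

/-- The characters of the block `b(θ)^L` over the character `l` of `Z` (`Z` a subgroup whose elements commute with `L`). -/
def XL (M : Ideal (integralClosure ℤ ℂ)) (L : Subgroup G) (θ : G → ℂ) (Z : Subgroup G) (l : Z →* ℂˣ) :
    Set (G → ℂ) :=
  {ψ | ψ ∈ Bl M L θ ∧ ∀ z : Z, ψ z = (l z : ℂ) * ψ 1}

/-- The block `b(θ)^L`, `L = C(P)`, `P ≤ Y`, has the expected numbers: over every character of a subgroup `Z` of the centre, `l(b) = |I|`,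
and all heights are zero. -/
structure Sg (p : ℕ) (M : Ideal (integralClosure ℤ ℂ)) (D L : Subgroup G) (θ : G → ℂ) : Prop where
  num : ∀ Z ≤ Zc D L, ∀ l : Z →* ℂˣ, iI M D θ * (XL M L θ Z l).ncard =
    Z.relIndex (YY M D θ) * (iI M D θ) ^ 2 + (Z.relIndex D - Z.relIndex (YY M D θ))
  lb : ∑ᶠ ψ ∈ Bl M L θ, EE p L ψ ψ = (iI M D θ : ℂ)
  ht : ∀ ψ ∈ Bl M L θ, ∀ a : ℕ, Nat.card D = p ^ a → Defect p L ψ a

/-- The contribution of the subsection `(u, b(θ)^(C_L(u)))` to the norm of `χ`. -/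
noncomputable def Su (p : ℕ) (M : Ideal (integralClosure ℤ ℂ)) (L : Subgroup G) (θ χ : G → ℂ) (u : G) : ℂ :=
  (∑ᶠ v ∈ {v : G | v ∈ Cz L u ∧ PReg p v},
    ev χ (eS (Cz L u) (Bl M (Cz L u) θ)) (u * v) *
      (starRingEnd ℂ) (ev χ (eS (Cz L u) (Bl M (Cz L u) θ)) (u * v))) / Nat.card (Cz L u)

/-- The length of the orbit of `u` under `T_L = TT M D θ ⊓ L`, up to the factor `|cz D|`-cosets: `|T_L : C_{T_L}(u)|`. -/
noncomputable def wt (M : Ideal (integralClosure ℤ ℂ)) (D L : Subgroup G) (θ : G → ℂ) (u : G) : ℕ :=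
  (Cz (TT M D θ ⊓ L) u).relIndex (TT M D θ ⊓ L)

/-- The characters `φ` of the subgroup `N` of `L` with `b(φ)^L = b(θ)^L` and `Z` in the kernel. -/
def BZ (M : Ideal (integralClosure ℤ ℂ)) (L : Subgroup G) (θ : G → ℂ) (Z N : Subgroup G) : Set (G → ℂ) :=
  {φ | φ ∈ IrrOn N ∧ SB M L φ θ ∧ ∀ z ∈ Z, ∀ x, φ (z * x) = φ x}

end

end Pool.Agent.FI3
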