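import Mathlib
import Pool.Agent.helper40.FI.SpecLA

/-!
# Project fi3 (MP_baa4d7_al), block LA3: the interface

`lv`, `LGC` are those of `helper40/FI`.
-/

set_option autoImplicit false

namespace Pool.Agent.FI3

open Pool.Agent.GR Pool.Agent.FI

noncomputable section

/-- The data of block LA3: `D` a finite abelian `p`-group, `Z ≤ Y < D`, `I` a group of automorphisms of `D` of order prime to `p`,
trivial on `Y` and free outside `Y`. -/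
structure LAD3 (p : ℕ) (M : Ideal (integralClosure ℤ ℂ)) {D : Type} [Group D] {X : Type}
    (Z Y : Subgroup D) (I : Subgroup (MulAut D)) (β d : X → D → ℂ) (n : D → ℤ) : Prop where
  set : Setup p M
  odd : p ≠ 2
  com : ∀ a b : D, a * b = b * a
  pg : IsPGroup p D
  zy : Z ≤ Y
  ne : Y ≠ ⊤
  cop : ¬ p ∣ Nat.card I
  fz : ∀ t ∈ I, ∀ z ∈ Y, t z = z
  fr : ∀ t ∈ I, ∀ u, u ∉ Y → t u = u → t = 1
  h1 : ∀ χ, LGC (β χ)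
  h2 : ∀ χ, ∀ t ∈ I, ∀ u, β χ (t u) = β χ u
  h3a : ∀ χ u, u ∉ Y → β χ u = (n u : ℂ) * d χ u
  h3b : ∀ u, u ∉ Y → ¬ (p : ℤ) ∣ n u
  h3c : ∀ t ∈ I, ∀ u, u ∉ Y → n (t u) = n u
  h3d : ∀ s : ℕ, ¬ p ∣ s → ∀ u, u ∉ Y → n (u ^ s) = n u
  h4a : ∀ u a, u ∉ Y → (∀ t ∈ I, t u ≠ a) → ∑ᶠ χ, β χ a * (starRingEnd ℂ) (β χ u) = 0
  h4b : ∀ u, u ∉ Y → ∑ᶠ χ, d χ u * (starRingEnd ℂ) (d χ u) = (Nat.card D : ℂ)
  h5 : ∀ χ, ∃ v : Z →* ℂˣ, ∀ (z : Z) (u : D), β χ (z * u) = lv v z * β χ u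
  h6 : ∀ χ, ∃ u, u ∉ Y ∧ d χ u ≠ 0
  h7 : ∀ χ u, u ∉ Y → IsIntegral ℤ (d χ u)

/-- The conclusions of block LA3 for a character `l₀` of `D` fixed by `I`. -/
structure LAC3 (M : Ideal (integralClosure ℤ ℂ)) {D : Type} [Group D] {X : Type}
    (Z Y : Subgroup D) (I : Subgroup (MulAut D)) (β d : X → D → ℂ) : Prop where
  c1 : ∀ l₀ : D →* ℂˣ, (∀ t ∈ I, ∀ u, lv l₀ (t u) = lv l₀ u) →
    Nat.card I * {χ : X | ∀ z ∈ Z, ∀ u, β χ (z * u) = lv l₀ z * β χ u}.ncard ≤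
      Z.relIndex Y * ((Y.index - 1) + Nat.card I ^ 2)
  c3 : ∀ l₀ : D →* ℂˣ, (∀ t ∈ I, ∀ u, lv l₀ (t u) = lv l₀ u) →
    Nat.card I * {χ : X | ∀ z ∈ Z, ∀ u, β χ (z * u) = lv l₀ z * β χ u}.ncard =
      Z.relIndex Y * ((Y.index - 1) + Nat.card I ^ 2) →
    ∀ χ u, (∀ z ∈ Z, ∀ u, β χ (z * u) = lv l₀ z * β χ u) → u ∉ Y → ¬ InM M (d χ u)

/-- **LAF3**. OUTPUT of block LA3. -/
def LAF3_stmt : Prop :=
  ∀ (p : ℕ) (M : Ideal (integralClosure ℤ ℂ)) (D : Type) [Group D] [Finite D] (X : Type) [Finite X]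
    (Z Y : Subgroup D) (I : Subgroup (MulAut D)) (β d : X → D → ℂ) (n : D → ℤ),
    LAD3 p M Z Y I β d n → LAC3 M Z Y I β d

end

end Pool.Agent.FI3
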