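import Mathlib
import Pool.Agent.helper12.FI3.Defs
import Pool.Agent.helper12.FI3.DefsLA
import Pool.Agent.helper59.FI3.SpecP3

/-!
# Project fi3 (MP_baa4d7_al): the OUTPUT statements of the blocks, and the assembly

Page: /team-store/FI3_helper12.md. `Lo3`, `Lg3`, `XL`, `Sg`, `Su`, `wt`, `BZ`, `YY`, `SFree`, `iI`: `helper12/FI3/Defs`.
-/

set_option autoImplicit false

namespace Pool.Agent.FI3

open Pool.Agent.helper58.DC Pool.Agent.DI Pool.Agent.GR Pool.Agent.OB Pool.Agent.DR Pool.Agent.FI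

/-- **FFF3** (block F3). The chains of `L = cz P` with smallest term `Z = Zc D L`. -/
def FFF3_stmt : Prop :=
  ∀ (p : ℕ) (M : Ideal (integralClosure ℤ ℂ)), Setup p M → ∀ (G : Type) [Group G] [Finite G]
    (D : Subgroup G) (x : G) (θ χ : G → ℂ), Lg3 p M D x θ χ → ∀ P ≤ YY M D θ,
    (∀ Q ≤ YY M D θ, Zc D (cz P) < Q → Sg p M D (cz Q) θ) →
    (iI M D θ : ℤ) * ∑ᶠ C ∈ {C : Finset (Subgroup G) | NCh p (cz P) (Zc D (cz P)) C},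
      (-1) ^ (C.card + 1) * ((Nat.card (cz P ⊓ nrm C : Subgroup G) : ℤ) *
        (BZ M (cz P) θ (Zc D (cz P)) (cz P ⊓ nrm C)).ncard) =
      (Nat.card (cz P) : ℤ) * ((iI M D θ : ℤ) * (XL M (cz P) θ (Zc D (cz P)) 1).ncard -
        (((Zc D (cz P)).relIndex D : ℤ) - (Zc D (cz P)).relIndex (YY M D θ) +
          (Zc D (cz P)).relIndex (YY M D θ) * (iI M D θ : ℤ) ^ 2)) ∧
    ∀ C : Finset (Subgroup G), NCh p (cz P) (Zc D (cz P)) C → C ≠ {Zc D (cz P)} →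
      ∀ φ ∈ BZ M (cz P) θ (Zc D (cz P)) (cz P ⊓ nrm C), ∀ a : ℕ, Nat.card D = p ^ a →
        Defect p (cz P ⊓ nrm C) φ a

/-- **CQ** (block CQ). The congruence for a group `L` with a central `p`-subgroup `Z`. -/
def CQ_stmt : Prop :=
  ∀ (p : ℕ) (M : Ideal (integralClosure ℤ ℂ)), Setup p M → ∀ (G : Type) [Group G] [Finite G]
    (L D Z : Subgroup G) (θ ψ₀ : G → ℂ) (x' : G), Z ≤ D → IsPGroup p D →
    (∀ c ∈ D, ∀ d ∈ D, c * d = d * c) → D ≤ L → cz D ≤ L → (∀ z ∈ Z, ∀ l ∈ L, l * z = z * l) →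
    θ ∈ IrrOn (cz D) → ψ₀ ∈ IrrOn L → SB M L θ ψ₀ → DefL p M L ψ₀ D x' →
    ∀ c : ℕ, 1 ≤ c → (∃ z₀ ∈ D, z₀ ^ p ^ (c - 1) ∉ Z) →
    ((p : ℤ) ^ c * Nat.card L) ∣ ∑ᶠ C ∈ {C : Finset (Subgroup G) | NCh p L Z C},
      (-1) ^ (C.card + 1) * ((Nat.card (L ⊓ nrm C : Subgroup G) : ℤ) * (BZ M L θ Z (L ⊓ nrm C)).ncard)

/-- **QMX3** (block N3). The norm formula, for every abelian `D`. -/
def QMX3_stmt : Prop :=
  ∀ (p : ℕ) (M : Ideal (integralClosure ℤ ℂ)), Setup p M → ∀ (G : Type) [Group G] [Finite G]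
    (D : Subgroup G) (x : G) (θ χ : G → ℂ), Lo3 p M D x θ χ → ∀ P ≤ D, ∀ χ' ∈ Bl M (cz P) θ,
    (1 : ℂ) = ∑ᶠ u ∈ (D : Set G), Su p M (cz P) θ χ' u / wt M D (cz P) θ u

/-- **TRS** (block N3). The sum of the contributions over the characters over a character of a central subgroup. -/
def TRS_stmt : Prop :=
  ∀ (p : ℕ) (M : Ideal (integralClosure ℤ ℂ)), Setup p M → ∀ (G : Type) [Group G] [Finite G]
    (D : Subgroup G) (x : G) (θ χ : G → ℂ), Lo3 p M D x θ χ → ∀ P ≤ D, ∀ Z ≤ Zc D (cz P), ∀ l : Z →* ℂˣ,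
    ∀ u ∈ D, ∑ᶠ χ' ∈ XL M (cz P) θ Z l, Su p M (cz P) θ χ' u =
      (∑ᶠ ψ ∈ Bl M (Cz (cz P) u) θ, EE p (Cz (cz P) u) ψ ψ) / Nat.card Z

/-- **N3C** (block N3; from QMX3, TRS, QIR). The number of the characters over a character of the centre. -/
def N3C_stmt : Prop :=
  ∀ (p : ℕ) (M : Ideal (integralClosure ℤ ℂ)), Setup p M → ∀ (G : Type) [Group G] [Finite G]
    (D : Subgroup G) (x : G) (θ χ : G → ℂ), Lg3 p M D x θ χ → ∀ P ≤ YY M D θ,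
    (∀ u ∈ YY M D θ, u ∉ Zc D (cz P) → Sg p M D (Cz (cz P) u) θ) →
    ∃ lL : ℕ, 1 ≤ lL ∧ ∑ᶠ ψ ∈ Bl M (cz P) θ, EE p (cz P) ψ ψ = (lL : ℂ) ∧
    ∀ Z ≤ Zc D (cz P), ∀ l : Z →* ℂˣ,
    iI M D θ * (XL M (cz P) θ Z l).ncard * Nat.card Z =
      Nat.card (Zc D (cz P)) * iI M D θ * lL +
      (Nat.card (YY M D θ) - Nat.card (Zc D (cz P))) * iI M D θ ^ 2 +
      (Nat.card D - Nat.card (YY M D θ))

/-- **QLA3** (block H3). The data of block LA3 for `L = cz P`, `P ≤ Y`, `β ψ u = ev ψ i u / θ 1`. -/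
def QLA3_stmt : Prop :=
  ∀ (p : ℕ) (M : Ideal (integralClosure ℤ ℂ)), Setup p M → p ≠ 2 → ∀ (G : Type) [Group G] [Finite G]
    (D : Subgroup G) (x : G) (θ χ : G → ℂ), Lg3 p M D x θ χ → ∀ P ≤ YY M D θ,
    ∃ (I : Subgroup (MulAut D)) (β : Bl M (cz P) θ → D → ℂ) (n : D → ℤ),
      Nat.card I = iI M D θ ∧
      (∀ σ ∈ I, ∃ t ∈ TT M D θ, ∀ u : D, ((σ u : D) : G) = t * u * t⁻¹) ∧
      (∀ t ∈ TT M D θ, ∃ σ ∈ I, ∀ u : D, ((σ u : D) : G) = t * u * t⁻¹) ∧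
      LAD3 p M ((Zc D (cz P)).subgroupOf D) ((YY M D θ).subgroupOf D) I β
        (fun ψ u => dd M (Cz (cz P) u) θ ψ u) n ∧
      (∀ (ψ : Bl M (cz P) θ) (l : D →* ℂˣ),
        (∀ z ∈ (Zc D (cz P)).subgroupOf D, ∀ u, β ψ (z * u) = lv l z * β ψ u) ↔
          ∀ z : D, (z : G) ∈ Zc D (cz P) → (ψ : G → ℂ) z = (l z : ℂ) * (ψ : G → ℂ) 1) ∧
      ∀ ψ : Bl M (cz P) θ, ∃ N k : ℕ, β ψ 1 = N ∧ N ≠ 0 ∧ (ψ : G → ℂ) 1 = k ∧
        padicValNat p N + padicValNat p (Nat.card (cz P)) =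
          padicValNat p k + padicValNat p (Nat.card D)

/-- **GG3** (assembly). One group. -/
def GG3_stmt : Prop :=
  ∀ (p : ℕ) (M : Ideal (integralClosure ℤ ℂ)), Setup p M → p ≠ 2 → ∀ (G : Type) [Group G] [Finite G]
    (D : Subgroup G) (x : G) (θ χ : G → ℂ), Lg3 p M D x θ χ →
    (∃ w ∈ D, ∃ t ∈ TT M D θ, iI M D θ < orderOf (w⁻¹ * (t * w * t⁻¹))) → ∀ P ≤ YY M D θ,
    (∀ Q ≤ YY M D θ, Zc D (cz P) < Q → Sg p M D (cz Q) θ) → Sg p M D (cz P) θ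

/-- **SG3** (assembly). -/
def SG3_stmt : Prop :=
  ∀ (p : ℕ) (M : Ideal (integralClosure ℤ ℂ)), Setup p M → p ≠ 2 → ∀ (G : Type) [Group G] [Finite G]
    (D : Subgroup G) (x : G) (θ χ : G → ℂ), Lg3 p M D x θ χ →
    (∃ w ∈ D, ∃ t ∈ TT M D θ, iI M D θ < orderOf (w⁻¹ * (t * w * t⁻¹))) → ∀ P ≤ YY M D θ,
    Sg p M D (cz P) θ

end Pool.Agent.FI3
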