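import Mathlib
import Pool.Agent.helper12.FI.DefsF

/-!
# Blocks with abelian defect group and semi-free inertial action: definitions for the statement

`Irr`, `IrrOn`, `omega`, `Induces`, `funMap` are those of `helper58/DC/Defs.lean`, `DefectGroup` is that of
`helper12/TZ/DefsV.lean`, `inertial` is that of `helper12/FI/DefsF.lean`. `B` is the block of the irreducible character `χ` of `G`.
-/

set_option autoImplicit false

namespace Pool.Agent.FIW

open Pool.Agent.helper58.DC

variable {G : Type} [Group G]

/-- `C_D(I)`: the elements of `D` which commute with all elements of `N_G(D, b)`. -/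
def fixed (M : Ideal (integralClosure ℤ ℂ)) (D : Subgroup G) (θ : G → ℂ) : Set G :=
  {u | u ∈ D ∧ ∀ t ∈ inertial M D θ, t * u = u * t}

/-- `D` is a defect group of `B`, `D` is abelian, `b` is the block of the character `θ` of `C_G(D)`, `b^G = B`, and the
inertial quotient `I = N_G(D, b) / C_G(D)` is abelian and acts semi-freely on `D` (an element of `N_G(D, b)` outside `C_G(D)`
commutes only with the elements of `C_D(I)`); the order of `I` is smaller than the order of some commutator `w⁻¹ (t w t⁻¹)`,
`w ∈ D`, `t ∈ N_G(D, b)`. -/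
structure SemiFree (p : ℕ) (M : Ideal (integralClosure ℤ ℂ)) (χ : G → ℂ) (D : Subgroup G)
    (θ : G → ℂ) : Prop where
  defect : Pool.Agent.MAP.DefectGroup p M χ D
  comm : ∀ c ∈ D, ∀ d ∈ D, c * d = d * c
  char : θ ∈ IrrOn (Subgroup.centralizer (D : Set G))
  ind : Induces M θ χ
  abel : ∀ s ∈ inertial M D θ, ∀ t ∈ inertial M D θ,
    s * t * s⁻¹ * t⁻¹ ∈ Subgroup.centralizer (D : Set G)
  free : ∀ t ∈ inertial M D θ, ∀ u ∈ D, t * u = u * t →
    u ∈ fixed M D θ ∨ t ∈ Subgroup.centralizer (D : Set G)
  small : ∃ w ∈ D, ∃ t ∈ inertial M D θ, (inertial M D θ).ncard <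
    orderOf (w⁻¹ * (t * w * t⁻¹)) * Nat.card (Subgroup.centralizer (D : Set G))

end Pool.Agent.FIW
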