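import Mathlib
import Pool.Agent.helper12.FI3.SpecO
import Pool.Agent.helper59.FI.Base
import Pool.Agent.helper12.FI.QGG

/-!
# Project fi3 (MP_baa4d7_al): lemmas for the assembly
-/

set_option autoImplicit false

namespace Pool.Agent.FI3

open Pool.Agent.helper58.DC Pool.Agent.DI Pool.Agent.GR Pool.Agent.OB Pool.Agent.DR Pool.Agent.FI

variable {G : Type} [Group G]

theorem YY_com {M : Ideal (integralClosure ℤ ℂ)} {D : Subgroup G} {θ : G → ℂ} {y t : G} (hy : y ∈ YY M D θ)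
    (ht : t ∈ TT M D θ) : t * y = y * t := by
  have h := (Subgroup.mem_inf.1 hy).2
  rw [Subgroup.mem_centralizer_iff] at h
  exact h t ht

theorem Zc_le_YY {M : Ideal (integralClosure ℤ ℂ)} {D L : Subgroup G} {θ : G → ℂ} (h : TT M D θ ≤ L) :
    Zc D L ≤ YY M D θ := by
  intro z hz
  have hz' := Zc_mem.1 hz
  exact mem_YY.2 ⟨hz'.1, fun t ht => hz'.2 t (h ht)⟩

theorem le_Zc {D P : Subgroup G} (hP : P ≤ D) : P ≤ Zc D (cz P) := by
  intro u hu
  refine Zc_mem.2 ⟨hP hu, fun l hl => ?_⟩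
  rw [Subgroup.mem_centralizer_iff] at hl
  exact (hl u hu).symm

theorem cz_Zc {D P : Subgroup G} (hP : P ≤ D) : cz (Zc D (cz P)) = cz P := by
  apply le_antisymm (cz_mono (le_Zc hP))
  intro l hl
  rw [Subgroup.mem_centralizer_iff]
  intro z hz
  exact ((Zc_mem.1 hz).2 l hl).symm

theorem cz_Zc_sup {D P : Subgroup G} (hP : P ≤ D) (u : G) :
    cz (Zc D (cz P) ⊔ Subgroup.zpowers u) = Cz (cz P) u := by
  rw [cz_sup_zpowers, cz_Zc hP]

theorem TT_pow [Finite G] {M : Ideal (integralClosure ℤ ℂ)} {D : Subgroup G} {θ : G → ℂ} {t : G}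
    (ht : t ∈ TT M D θ) : t ^ iI M D θ ∈ cz D := by
  have hn : ((cz D).subgroupOf (TT M D θ)).Normal := by
    refine ⟨fun c hc g => ?_⟩
    rw [Subgroup.mem_subgroupOf] at hc ⊢
    exact cz_conj g.2.1 hc
  have h := Subgroup.pow_index_mem ((cz D).subgroupOf (TT M D θ)) (⟨t, ht⟩ : TT M D θ)
  rw [Subgroup.mem_subgroupOf] at h
  exact h

/-- a commutator whose power lies in `Y` has this power trivial -/
theorem com_pow [Finite G] {p : ℕ} (hpr : p.Prime) {M : Ideal (integralClosure ℤ ℂ)} {D : Subgroup G}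
    {θ : G → ℂ} (hD : IsPGroup p D) (hcom : ∀ c ∈ D, ∀ d ∈ D, c * d = d * c)
    (hbet : ¬ p ∣ iI M D θ) {w t : G} (hw : w ∈ D) (ht : t ∈ TT M D θ) (k : ℕ)
    (hk : (w⁻¹ * (t * w * t⁻¹)) ^ k ∈ YY M D θ) : (w⁻¹ * (t * w * t⁻¹)) ^ k = 1 := by
  have htw : t * w * t⁻¹ ∈ D := (Subgroup.mem_normalizer_iff.1 ht.1 w).1 hw
  set y := (w⁻¹ * (t * w * t⁻¹)) ^ k with hy
  have h1 : y = (w ^ k)⁻¹ * (t * w ^ k * t⁻¹) := by
    rw [hy]
    have hc : Commute w⁻¹ (t * w * t⁻¹) := hcom _ (D.inv_mem hw) _ htw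
    rw [hc.mul_pow, inv_pow, conj_pow]
  have h2 : t * w ^ k * t⁻¹ = w ^ k * y := by
    rw [h1]
    group
  have hyt : Commute t y := YY_com hk ht
  have h3 : ∀ j : ℕ, t ^ j * w ^ k * (t ^ j)⁻¹ = w ^ k * y ^ j := by
    intro j
    induction j with
    | zero => simp
    | succ j ih =>
      have h4 : t ^ (j + 1) * w ^ k * (t ^ (j + 1))⁻¹ = t * (t ^ j * w ^ k * (t ^ j)⁻¹) * t⁻¹ := by
        rw [pow_succ']
        group
      have h5 : t * y ^ j * t⁻¹ = y ^ j := by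
        have h6 : Commute t (y ^ j) := hyt.pow_right j
        rw [h6.eq]
        group
      calc t ^ (j + 1) * w ^ k * (t ^ (j + 1))⁻¹ = t * (w ^ k * y ^ j) * t⁻¹ := by rw [h4, ih]
        _ = (t * w ^ k * t⁻¹) * (t * y ^ j * t⁻¹) := by group
        _ = w ^ k * y * y ^ j := by rw [h2, h5]
        _ = w ^ k * y ^ (j + 1) := by rw [pow_succ', mul_assoc]
  have h4 := h3 (iI M D θ)
  have h5 : t ^ iI M D θ * w ^ k * (t ^ iI M D θ)⁻¹ = w ^ k := by
    have h6 := TT_pow ht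
    rw [Subgroup.mem_centralizer_iff] at h6
    have h7 := h6 _ (D.pow_mem hw k)
    rw [← h7]
    group
  rw [h5] at h4
  have h6 : y ^ iI M D θ = 1 := by
    have h7 : w ^ k * y ^ iI M D θ = w ^ k * 1 := by rw [← h4, mul_one]
    exact mul_left_cancel h7
  obtain ⟨m, hm⟩ := hD ⟨y, YY_le hk⟩
  have h7 : y ^ p ^ m = 1 := by
    have h8 := congrArg Subtype.val hm
    simpa using h8
  have h8 : orderOf y ∣ Nat.gcd (iI M D θ) (p ^ m) :=
    Nat.dvd_gcd (orderOf_dvd_of_pow_eq_one h6) (orderOf_dvd_of_pow_eq_one h7)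
  have h9 : Nat.gcd (iI M D θ) (p ^ m) = 1 := by
    apply Nat.Coprime.pow_right
    exact ((hpr.coprime_iff_not_dvd).2 hbet).symm
  rw [h9] at h8
  exact orderOf_eq_one_iff.1 (Nat.dvd_one.1 h8)

end Pool.Agent.FI3
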