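import Mathlib
import Pool.Agent.helper12.FI3.SpecO
import Pool.Agent.helper12.FI3.Lem
import Pool.Agent.helper12.FI3.DefsW
import Pool.Agent.helper12.FI.Fin
import Pool.Agent.helper12.FI.Tr
import Pool.Agent.helper22.FI.SpecA

/-!
# Project fi3 (MP_baa4d7_al): the final theorem
-/

set_option autoImplicit false

namespace Pool.Agent.FI3

open Pool.Agent.helper58.DC Pool.Agent.DI Pool.Agent.GR Pool.Agent.OB Pool.Agent.DR Pool.Agent.FI
open Classical in
/-- **FFD** (block F3; = FFD3 of `helper58/FI3/SpecF3`). -/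
def FFD_stmt : Prop :=
  ∀ (p : ℕ) (M : Ideal (integralClosure ℤ ℂ)), Setup p M → ∀ (G : Type) [Group G] [Finite G]
    (D : Subgroup G) (x : G) (θ χ : G → ℂ), Lg3 p M D x θ χ → IsOp p (⊤ : Subgroup G) ⊥ →
    (∀ R ≤ YY M D θ, R ≠ ⊥ → Sg p M D (cz R) θ) →
    ∀ a : ℕ, Nat.card D = p ^ a → ∀ d : ℤ,
    (iI M D θ : ℤ) * altSum (trivE G) p M χ d ⊤ =
      (iI M D θ : ℤ) * (BlkD p M χ ⊤ d).ncard -
        (if d = a then ((((⊥ : Subgroup G).relIndex D - (⊥ : Subgroup G).relIndex (YY M D θ)) +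
          (⊥ : Subgroup G).relIndex (YY M D θ) * ((cz D).relIndex (TT M D θ)) ^ 2 : ℕ) : ℤ) else 0)


/-- The standing hypotheses of the project from the structure of the statement. -/
theorem Fin3_std (hLO : LO3_stmt) (hLG : LG3_stmt) {p : ℕ}
    (hpr : p.Prime) (hodd : p ≠ 2) {M : Ideal (integralClosure ℤ ℂ)} (hM : M.IsMaximal)
    (hp : (p : integralClosure ℤ ℂ) ∈ M) {G : Type} [Group G] [Finite G]
    {χ : G → ℂ} (hχ : χ ∈ Irr G) {D : Subgroup G} {θ : G → ℂ}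
    (h : Pool.Agent.FIW.SemiFree p M χ D θ) :
    ∃ x : G, Lg3 p M D x θ χ ∧
      (∃ w ∈ D, ∃ t ∈ TT M D θ, iI M D θ < orderOf (w⁻¹ * (t * w * t⁻¹))) ∧
      (Pool.Agent.FIW.inertial M D θ).ncard = iI M D θ * Nat.card (cz D) ∧
      Pool.Agent.FIW.fixed M D θ = (YY M D θ : Set G) ∧ 1 ≤ iI M D θ := by
  classical
  have hS : Setup p M := ⟨hpr, hM, hp⟩
  have : Fact p.Prime := ⟨hpr⟩
  obtain ⟨x, hx⟩ := Fin_defAt hS hχ h.defect
  have hpg : IsPGroup p D := hx.pgrp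
  have hR : Rt p M D x θ χ := ⟨hχ, hx, h.comm, h.char, h.ind⟩
  have hin : Pool.Agent.FIW.inertial M D θ = (TT M D θ : Set G) := by
    ext g
    exact Tr_inertial M D θ g
  have hfx : Pool.Agent.FIW.fixed M D θ = (YY M D θ : Set G) := by
    ext u
    change (u ∈ D ∧ ∀ t ∈ Pool.Agent.FIW.inertial M D θ, t * u = u * t) ↔ u ∈ YY M D θ
    rw [hin, mem_YY]
    rfl
  have hFr : SFree M D θ := by
    intro t ht u hu htu
    have h1 := h.free t ((Tr_inertial M D θ t).2 ht) u hu htu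
    rw [hfx] at h1
    exact h1
  have hAb : ∀ s ∈ TT M D θ, ∀ t ∈ TT M D θ, s * t * s⁻¹ * t⁻¹ ∈ cz D := fun s hs t ht =>
    h.abel s ((Tr_inertial M D θ s).2 hs) t ((Tr_inertial M D θ t).2 ht)
  have hDcz : D ≤ cz D := by
    intro a ha
    rw [Subgroup.mem_centralizer_iff]
    intro b hb
    exact h.comm b hb a ha
  have hCT : cz D ≤ TT M D θ := by
    intro c hc
    have hc' : c ∈ nz D := by
      rw [Subgroup.mem_normalizer_iff]
      intro y
      rw [Subgroup.mem_centralizer_iff] at hc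
      constructor
      · intro hy
        have h1 := hc y hy
        have h2 : c * y * c⁻¹ = y := by
          rw [← h1]
          group
        rw [h2]
        exact hy
      · intro hy
        have h1 := hc _ hy
        have h2 : c * y * c⁻¹ = y := by
          have h3 : c⁻¹ * (c * y * c⁻¹ * c) * c⁻¹ = c⁻¹ * (c * (c * y * c⁻¹)) * c⁻¹ := by
            rw [h1]
          have h4 : c⁻¹ * (c * y * c⁻¹ * c) * c⁻¹ = y * c⁻¹ := by group
          have h5 : c⁻¹ * (c * (c * y * c⁻¹)) * c⁻¹ = c * y * c⁻¹ * c⁻¹ := by group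
          rw [h4, h5] at h3
          exact (mul_right_cancel h3).symm
        rw [h2] at hy
        exact hy
    refine ⟨hc', ?_⟩
    have h1 : funMap (MulAut.conj c) θ = θ := by
      have hth : θ ∈ IrrOn (cz D) := h.char
      funext y
      have h2 := ((Pool.Agent.DR.AllDI.iB2 G (cz D)).2 θ hth).2.1 y c⁻¹ ((cz D).inv_mem hc)
      unfold funMap
      rw [MulAut.conj_inv_apply]
      simpa using h2
    rw [h1]
    exact SB.refl _ _
  have hcard : Nat.card (TT M D θ) = iI M D θ * Nat.card (cz D) := by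
    have h2 := Subgroup.relIndex_mul_relIndex (⊥ : Subgroup G) (cz D) (TT M D θ) bot_le hCT
    rw [Subgroup.relIndex_bot_left, Subgroup.relIndex_bot_left] at h2
    unfold iI
    rw [mul_comm]
    exact h2.symm
  have hinc : (Pool.Agent.FIW.inertial M D θ).ncard = iI M D θ * Nat.card (cz D) := by
    rw [hin, ← hcard]
    rfl
  obtain ⟨w, hw, t, ht, hlt⟩ := h.small
  have ht' : t ∈ TT M D θ := (Tr_inertial M D θ t).1 ht
  rw [hinc] at hlt
  have hlt' : iI M D θ < orderOf (w⁻¹ * (t * w * t⁻¹)) := lt_of_mul_lt_mul_right hlt (Nat.zero_le _)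
  have hi1 : 1 ≤ iI M D θ := by
    by_contra h0
    have h1 : iI M D θ = 0 := by omega
    rw [h1, zero_mul] at hcard
    exact Nat.card_pos.ne' hcard
  have hDY : ¬ D ≤ YY M D θ := by
    intro h1
    have h2 : t * w = w * t := (mem_YY.1 (h1 hw)).2 t ht'
    have h3 : w⁻¹ * (t * w * t⁻¹) = 1 := by
      rw [h2]
      group
    rw [h3, orderOf_one] at hlt'
    omega
  exact ⟨x, hLG p M hS hodd G D x θ χ (hLO p M hS G D x θ χ hR hFr hDY hAb), ⟨w, hw, t, ht', hlt'⟩,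
    hinc, hfx, hi1⟩

theorem Fin3_bl (hTPR : Pool.Agent.FI.TPR_stmt) {p : ℕ} {M : Ideal (integralClosure ℤ ℂ)} (hS : Setup p M)
    {G : Type} [Group G] [Finite G] {D : Subgroup G} {x : G} {θ χ : G → ℂ} (hR : Rt p M D x θ χ) :
    Blk M χ (⊤ : Subgroup G) = Bl M (cz (⊥ : Subgroup G)) θ := by
  obtain ⟨-, h2, -, -, -⟩ := hTPR p M hS G
  have h3 : SB M (⊤ : Subgroup G) θ χ := (h2 θ χ).1 hR.ind
  rw [QGG_cz_bot G]
  ext ψ
  constructor
  · rintro ⟨h4, h5⟩
    exact ⟨h4, ((h2 ψ χ).1 h5).trans h3.symm⟩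
  · rintro ⟨h4, h5⟩
    exact ⟨h4, (h2 ψ χ).2 (h5.trans h3)⟩

/-- The numbers of the characters of `B` of every defect. -/
theorem Fin3_num (hTPR : Pool.Agent.FI.TPR_stmt) (hSG : SG3_stmt) {p : ℕ} (hodd : p ≠ 2)
    {M : Ideal (integralClosure ℤ ℂ)} (hS : Setup p M)
    {G : Type} [Group G] [Finite G] {D : Subgroup G} {x : G} {θ χ : G → ℂ} (h : Lg3 p M D x θ χ)
    (hw : ∃ w ∈ D, ∃ t ∈ TT M D θ, iI M D θ < orderOf (w⁻¹ * (t * w * t⁻¹)))
    (a : ℕ) (ha : Nat.card D = p ^ a) (d : ℤ) :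
    iI M D θ * (BlkD p M χ ⊤ d).ncard =
      if d = a then Nat.card (YY M D θ) * iI M D θ ^ 2 + (p ^ a - Nat.card (YY M D θ)) else 0 := by
  classical
  have hpr := hS.pr
  have : Fact p.Prime := ⟨hpr⟩
  have hsg := hSG p M hS hodd G D x θ χ h hw ⊥ bot_le
  have hbl := Fin3_bl hTPR hS h.lo.rt
  have hX : XL M (cz (⊥ : Subgroup G)) θ ⊥ 1 = Bl M (cz (⊥ : Subgroup G)) θ := by
    ext ψ
    constructor
    · intro h1
      exact h1.1
    · intro h1
      refine ⟨h1, fun z => ?_⟩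
      have h2 : (z : G) = 1 := Subgroup.mem_bot.1 z.2
      rw [h2]
      simp
  have hn := hsg.num ⊥ bot_le 1
  rw [hX, ← hbl, Subgroup.relIndex_bot_left, Subgroup.relIndex_bot_left, ha] at hn
  split_ifs with hd
  · have h1 : BlkD p M χ ⊤ d = Blk M χ (⊤ : Subgroup G) := by
      ext ψ
      constructor
      · intro h2
        exact h2.1
      · intro h2
        refine ⟨h2, ?_⟩
        rw [hd]
        rw [hbl] at h2
        have h3 := hsg.ht ψ h2 a ha
        rw [QGG_cz_bot G] at h3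
        exact h3
    rw [h1]
    exact hn
  · have h1 : BlkD p M χ ⊤ d = ∅ := by
      rw [Set.eq_empty_iff_forall_notMem]
      intro ψ hψ
      have h2 : ψ ∈ Bl M (cz (⊥ : Subgroup G)) θ := by
        rw [← hbl]
        exact hψ.1
      have h3 := hsg.ht ψ h2 a ha
      rw [QGG_cz_bot G] at h3
      exact hd (PF_defect_unique p ⊤ ψ _ _ hψ.2 h3)
    rw [h1, Set.ncard_empty, mul_zero]

/-- **FIN3**, all `G`: the numbers of the characters. -/
theorem Fin3_cnt (hLO : LO3_stmt) (hLG : LG3_stmt) (hTPR : Pool.Agent.FI.TPR_stmt) (hSG : SG3_stmt) (p : ℕ)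
    (hpr : p.Prime) (hodd : p ≠ 2) (M : Ideal (integralClosure ℤ ℂ)) (hM : M.IsMaximal)
    (hp : (p : integralClosure ℤ ℂ) ∈ M) (G : Type) [Group G] [Finite G]
    (χ : G → ℂ) (hχ : χ ∈ Irr G) (D : Subgroup G) (θ : G → ℂ)
    (h : Pool.Agent.FIW.SemiFree p M χ D θ) (i a : ℕ)
    (hi : (Pool.Agent.FIW.inertial M D θ).ncard = i * Nat.card (Subgroup.centralizer (D : Set G)))
    (ha : Nat.card D = p ^ a) (d : ℤ) :
    i * Nat.card {ψ : G → ℂ // ψ ∈ Irr G ∧ Defect p ⊤ ψ d ∧ Induces M ψ χ} =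
      if d = a then (Pool.Agent.FIW.fixed M D θ).ncard * i ^ 2 +
        (p ^ a - (Pool.Agent.FIW.fixed M D θ).ncard) else 0 := by
  have hS : Setup p M := ⟨hpr, hM, hp⟩
  obtain ⟨x, hL, hw, hin, hfx, -⟩ := Fin3_std hLO hLG hpr hodd hM hp hχ h
  have hii : i = iI M D θ := by
    rw [hin] at hi
    exact (Nat.eq_of_mul_eq_mul_right Nat.card_pos hi).symm
  have hk : Nat.card {ψ : G → ℂ // ψ ∈ Irr G ∧ Defect p ⊤ ψ d ∧ Induces M ψ χ} = (BlkD p M χ ⊤ d).ncard := by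
    have h1 : (BlkD p M χ ⊤ d).ncard =
      Nat.card {ψ : G → ℂ // ψ ∈ Blk M χ (⊤ : Subgroup G) ∧ Defect p (⊤ : Subgroup G) ψ d} := rfl
    rw [h1]
    refine Nat.card_congr (Equiv.subtypeEquivRight fun ψ => ?_)
    have h2 := Pool.Agent.GR.All.dTI G ψ
    constructor
    · rintro ⟨h3, h4, h5⟩
      exact ⟨⟨h2.2 h3, h5⟩, h4⟩
    · rintro ⟨⟨h3, h5⟩, h4⟩
      exact ⟨h2.1 h3, h4, h5⟩
  have hfc : (Pool.Agent.FIW.fixed M D θ).ncard = Nat.card (YY M D θ) := by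
    rw [hfx]
    rfl
  rw [hk, hii, hfc]
  exact Fin3_num hTPR hSG hodd hS hL hw a ha d

/-- **FIN3**. -/
theorem Fin3_main (hLO : LO3_stmt) (hLG : LG3_stmt) (hTPR : Pool.Agent.FI.TPR_stmt) (hSG : SG3_stmt)
    (hFFD : FFD_stmt) (p : ℕ)
    (hpr : p.Prime) (hodd : p ≠ 2) (M : Ideal (integralClosure ℤ ℂ)) (hM : M.IsMaximal)
    (hp : (p : integralClosure ℤ ℂ) ∈ M) (G : Type) [Group G] [Finite G]
    (hG : IsOp p (⊤ : Subgroup G) ⊥) (χ : G → ℂ) (hχ : χ ∈ Irr G) (D : Subgroup G) (θ : G → ℂ)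
    (h : Pool.Agent.FIW.SemiFree p M χ D θ) (d : ℤ) : altSum (trivE G) p M χ d ⊤ = 0 := by
  have hS : Setup p M := ⟨hpr, hM, hp⟩
  have : Fact p.Prime := ⟨hpr⟩
  obtain ⟨x, hL, hw, -, -, hi⟩ := Fin3_std hLO hLG hpr hodd hM hp hχ h
  obtain ⟨a, ha⟩ := IsPGroup.iff_card.1 hL.lo.rt.dfa.pgrp
  have hF := hFFD p M hS G D x θ χ hL hG (fun R hR _ => hSG p M hS hodd G D x θ χ hL hw R hR) a ha d
  have hN := Fin3_num hTPR hSG hodd hS hL hw a ha d
  have hi1 : (iI M D θ : ℤ) ≠ 0 := by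
    intro h0
    have h1 : iI M D θ = 0 := by exact_mod_cast h0
    omega
  have hz : (iI M D θ : ℤ) * altSum (trivE G) p M χ d ⊤ = 0 := by
    rw [hF]
    have h2 : ((iI M D θ : ℤ) * (BlkD p M χ ⊤ d).ncard) = ((iI M D θ * (BlkD p M χ ⊤ d).ncard : ℕ) : ℤ) := by
      push_cast
      ring
    rw [h2, hN, Subgroup.relIndex_bot_left, Subgroup.relIndex_bot_left, ha]
    have h3 : (cz D).relIndex (TT M D θ) = iI M D θ := rfl
    rw [h3]
    split_ifs
    · rw [add_comm (Nat.card (YY M D θ) * iI M D θ ^ 2), sub_self]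
    · simp
  exact (mul_eq_zero.1 hz).resolve_left hi1

end Pool.Agent.FI3
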