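import Mathlib
import Pool.Agent.helper12.FI3.Lem

/-!
# Project fi3 (MP_baa4d7_al): one group
-/

set_option autoImplicit false

namespace Pool.Agent.FI3

open Pool.Agent.helper58.DC Pool.Agent.DI Pool.Agent.GR Pool.Agent.OB Pool.Agent.DR Pool.Agent.FI

theorem GN1 (i X z lL y n a b : ℕ) (hi : 1 ≤ i) (hz : 1 ≤ z) (ha : 1 ≤ a) (hb : 1 ≤ b) (hy : y = z * a)
    (hn : n = y * b) (h2 : i * X * z = z * i * lL + (y - z) * i ^ 2 + (n - y))
    (hc : i * X ≤ a * ((b - 1) + i ^ 2)) : lL ≤ i := by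
  obtain ⟨a, rfl⟩ : ∃ k, a = k + 1 := ⟨a - 1, by omega⟩
  obtain ⟨b, rfl⟩ : ∃ k, b = k + 1 := ⟨b - 1, by omega⟩
  have h3 : y - z = z * a := by
    rw [hy, mul_add, mul_one, Nat.add_sub_cancel]
  have h4 : n - y = y * b := by
    rw [hn, mul_add, mul_one, Nat.add_sub_cancel]
  rw [h3, h4, hy] at h2
  rw [Nat.add_sub_cancel] at hc
  have h5 : z * (i * X) ≤ z * ((a + 1) * (b + i ^ 2)) := Nat.mul_le_mul_left z hc
  have h6 : z * (i * lL) ≤ z * (i * i) := by nlinarith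
  have h7 := Nat.le_of_mul_le_mul_left h6 hz
  exact Nat.le_of_mul_le_mul_left h7 hi

theorem GN2 (i X z y n a b : ℕ) (hz : 1 ≤ z) (hb : 1 ≤ b) (hy : y = z * a) (hn : n = y * b)
    (h2 : i * X * z = y * i ^ 2 + (n - y)) :
    i * X = a * i ^ 2 + (a * b - a) ∧ i * X = a * ((b - 1) + i ^ 2) := by
  obtain ⟨b, rfl⟩ : ∃ k, b = k + 1 := ⟨b - 1, by omega⟩
  have h4 : n - y = y * b := by
    rw [hn, mul_add, mul_one, Nat.add_sub_cancel]
  rw [h4, hy] at h2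
  have h5 : a * (b + 1) - a = a * b := by rw [mul_add, mul_one, Nat.add_sub_cancel]
  rw [h5, Nat.add_sub_cancel]
  have h6 : z * (i * X) = z * (a * i ^ 2 + a * b) := by linarith
  have h7 := Nat.eq_of_mul_eq_mul_left hz h6
  exact ⟨h7, by rw [h7]; ring⟩

theorem GN3 (i X z lL y n a b Lc : ℕ) (S e : ℤ) (hi : 1 ≤ i) (hz : 1 ≤ z) (ha : 1 ≤ a) (hb : 1 ≤ b)
    (hL : 1 ≤ Lc) (hy : y = z * a)
    (hn : n = y * b) (h2 : i * X * z = z * i * lL + (y - z) * i ^ 2 + (n - y))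
    (hS : (i : ℤ) * S = Lc * ((i : ℤ) * X - (((a * b : ℕ) : ℤ) - a + a * (i : ℤ) ^ 2)))
    (hd : e * Lc ∣ S) (hl1 : 1 ≤ lL) (hl : lL ≤ i) (he : (i : ℤ) < e) : lL = i := by
  obtain ⟨a, rfl⟩ : ∃ k, a = k + 1 := ⟨a - 1, by omega⟩
  obtain ⟨b, rfl⟩ : ∃ k, b = k + 1 := ⟨b - 1, by omega⟩
  have h3 : y - z = z * a := by
    rw [hy, mul_add, mul_one, Nat.add_sub_cancel]
  have h4 : n - y = y * b := by
    rw [hn, mul_add, mul_one, Nat.add_sub_cancel]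
  rw [h3, h4, hy] at h2
  have h5 : z * (i * X) = z * (i * lL + a * i ^ 2 + (a + 1) * b) := by linarith
  have h6 : ((i * X : ℕ) : ℤ) = ((i * lL + a * i ^ 2 + (a + 1) * b : ℕ) : ℤ) := by
    exact_mod_cast Nat.eq_of_mul_eq_mul_left hz h5
  push_cast at h6 hS
  have h7 : (i : ℤ) * S = i * (Lc * ((lL : ℤ) - i)) := by
    rw [hS, h6]
    ring
  have hi' : (i : ℤ) ≠ 0 := by exact_mod_cast (by omega : i ≠ 0)
  have h8 : S = Lc * ((lL : ℤ) - i) := mul_left_cancel₀ hi' h7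
  rw [h8, mul_comm (Lc : ℤ)] at hd
  have hL' : (Lc : ℤ) ≠ 0 := by exact_mod_cast (by omega : Lc ≠ 0)
  have h9 : e ∣ (lL : ℤ) - i := (mul_dvd_mul_iff_right hL').1 hd
  by_contra hne
  have h10 : (0 : ℤ) < i - lL := by
    have : lL < i := lt_of_le_of_ne hl hne
    omega
  have h11 : e ∣ (i : ℤ) - lL := by
    have := (dvd_neg).2 h9
    simpa using this
  have h12 := Int.le_of_dvd h10 h11
  omega

/-- extension of linear characters (block LA3) -/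
def LEXh : Prop := ∀ (p : ℕ) (D : Type) [Group D] [Finite D], p.Prime → (∀ a b : D, a * b = b * a) → IsPGroup p D →
    ∀ I : Subgroup (MulAut D), ¬ p ∣ Nat.card I → ∀ Z : Subgroup D, (∀ t ∈ I, ∀ z ∈ Z, t z = z) →
    ∀ l : Z →* ℂˣ, ∃ l₀ : D →* ℂˣ, (∀ t ∈ I, ∀ u, lv l₀ (t u) = lv l₀ u) ∧ ∀ z : Z, l₀ z = l z

theorem GG3 (hFRA : FRA3_stmt) (hFFF : FFF3_stmt) (hCQ : CQ_stmt) (hN3C : N3C_stmt) (hQLA : QLA3_stmt)
    (hLAF : LAF3_stmt) (hLCO : LCO_stmt) (hLEX : LEXh) : GG3_stmt := by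
  classical
  intro p M hS hp G _ _ D x θ χ h hsm P hP hSg
  have hpr := hS.pr
  have : Fact p.Prime := ⟨hpr⟩
  have hL0 := h.lo
  have hR := hL0.rt
  have hDp := hR.dfa.pgrp
  have hPD : P ≤ D := hP.trans YY_le
  obtain ⟨⟨hf1, hf2, hf3, hf4, -⟩, -, -⟩ := hFRA p M hS G D x θ χ hL0.toLoS P hPD
  have hTL := hf4 hP
  have hZY : Zc D (cz P) ≤ YY M D θ := Zc_le_YY hTL
  have hZD : Zc D (cz P) ≤ D := hZY.trans YY_le
  have hi1 : 1 ≤ iI M D θ := by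
    unfold iI
    have h1 : (cz D).relIndex (TT M D θ) ≠ 0 := Subgroup.index_ne_zero_of_finite
    omega
  -- the blocks of the `C_L(u)`
  have hSu : ∀ u ∈ YY M D θ, u ∉ Zc D (cz P) → Sg p M D (Cz (cz P) u) θ := by
    intro u hu huZ
    rw [← cz_Zc_sup hPD]
    refine hSg _ (sup_le hZY (Subgroup.zpowers_le.2 hu)) (lt_of_le_of_ne le_sup_left ?_)
    intro h1
    apply huZ
    rw [h1]
    exact Subgroup.mem_sup_right (Subgroup.mem_zpowers u)
  obtain ⟨lL, hl1, hlL, hnum⟩ := hN3C p M hS G D x θ χ h P hP hSu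
  obtain ⟨I, β, n, hI, hIt, hIt', hLAD, hiff, hdeg⟩ := hQLA p M hS hp G D x θ χ h P hP
  have hfin : (Bl M (cz P) θ).Finite := (IrrOn_fin _).subset fun ψ hψ => hψ.1
  have : Finite ↥(Bl M (cz P) θ) := hfin.to_subtype
  have hA := hLAF p M D (Bl M (cz P) θ) _ _ _ _ _ _ hLAD
  have hcom : ∀ c d : D, c * d = d * c := fun c d => Subtype.ext (hR.com c c.2 d d.2)
  -- numbers
  have hz1 : 1 ≤ Nat.card (Zc D (cz P)) := Nat.card_pos
  have hcard : ∀ H K : Subgroup G, H ≤ K → Nat.card K = Nat.card H * H.relIndex K := by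
    intro H K hHK
    have h2 := Subgroup.relIndex_mul_relIndex (⊥ : Subgroup G) H K bot_le hHK
    rw [Subgroup.relIndex_bot_left, Subgroup.relIndex_bot_left] at h2
    exact h2.symm
  have hri : ∀ H K : Subgroup G, 1 ≤ H.relIndex K := fun H K => by
    have h1 : H.relIndex K ≠ 0 := Subgroup.index_ne_zero_of_finite
    omega
  have hb1 := hri (YY M D θ) D
  have hyn := hcard (YY M D θ) D YY_le
  have hidx : ((YY M D θ).subgroupOf D).index = (YY M D θ).relIndex D := rfl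
  have hrel : ((Zc D (cz P)).subgroupOf D).relIndex ((YY M D θ).subgroupOf D) =
      (Zc D (cz P)).relIndex (YY M D θ) := by
    have h1 := Subgroup.relIndex_subgroupOf (H := Zc D (cz P)) (K := YY M D θ) (L := D) YY_le
    exact h1
  -- the characters over `l`
  have hXl : ∀ l₀ : D →* ℂˣ, {χ' : Bl M (cz P) θ | ∀ z ∈ (Zc D (cz P)).subgroupOf D, ∀ u,
      β χ' (z * u) = lv l₀ z * β χ' u}.ncard =
      (XL M (cz P) θ (Zc D (cz P)) (l₀.comp (Subgroup.inclusion hZD))).ncard := by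
    intro l₀
    have h1 : (Subtype.val '' {χ' : Bl M (cz P) θ | ∀ z ∈ (Zc D (cz P)).subgroupOf D, ∀ u,
        β χ' (z * u) = lv l₀ z * β χ' u}) =
        XL M (cz P) θ (Zc D (cz P)) (l₀.comp (Subgroup.inclusion hZD)) := by
      ext ψ
      constructor
      · rintro ⟨ψ', h2, rfl⟩
        refine ⟨ψ'.2, fun z => ?_⟩
        exact (hiff ψ' l₀).1 h2 ⟨z, hZD z.2⟩ z.2
      · rintro ⟨h2, h3⟩
        refine ⟨⟨ψ, h2⟩, (hiff ⟨ψ, h2⟩ l₀).2 ?_, rfl⟩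
        intro z hz
        exact h3 ⟨z, hz⟩
    rw [← h1, Set.ncard_image_of_injective _ Subtype.val_injective]
  have hfzZ : ∀ t ∈ I, ∀ z ∈ (Zc D (cz P)).subgroupOf D, t z = z := fun t ht z hz =>
    hLAD.fz t ht z (hLAD.zy hz)
  have hone : (XL M (cz P) θ (Zc D (cz P)) 1) =
      (XL M (cz P) θ (Zc D (cz P)) ((1 : D →* ℂˣ).comp (Subgroup.inclusion hZD))) := rfl
  have hc1 := hA.c1 1 (fun t _ u => by rw [lv_hone, lv_hone])
  rw [hXl 1, ← hone, hI, hidx, hrel] at hc1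
  have hy := hcard (Zc D (cz P)) (YY M D θ) hZY
  have hn1 := hnum (Zc D (cz P)) le_rfl 1
  have hli : lL ≤ iI M D θ := GN1 _ _ _ _ _ _ _ _ hi1 hz1 (hri _ _) hb1 hy hyn hn1 hc1
  -- a character of the block
  obtain ⟨ψ₀, hψ₀⟩ : (Bl M (cz P) θ).Nonempty := by
    by_contra hne
    rw [Set.not_nonempty_iff_eq_empty] at hne
    rw [hne, finsum_mem_empty] at hlL
    have h1 : lL = 0 := by exact_mod_cast hlL.symm
    omega
  obtain ⟨x', -, hx'⟩ := hL0.dfl P hPD ψ₀ hψ₀.1 hψ₀.2.symm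
  -- the exponent
  obtain ⟨w, hw, t, ht, hwt⟩ := hsm
  have htw : t * w * t⁻¹ ∈ D := (Subgroup.mem_normalizer_iff.1 ht.1 w).1 hw
  have hz₀D : w⁻¹ * (t * w * t⁻¹) ∈ D := D.mul_mem (D.inv_mem hw) htw
  obtain ⟨c, hc⟩ : ∃ c : ℕ, orderOf (w⁻¹ * (t * w * t⁻¹)) = p ^ c := by
    obtain ⟨k, hk⟩ := hDp ⟨_, hz₀D⟩
    have h1 : (w⁻¹ * (t * w * t⁻¹)) ^ p ^ k = 1 := by
      have h2 := congrArg Subtype.val hk
      simpa using h2
    exact ((Nat.dvd_prime_pow hpr).1 (orderOf_dvd_of_pow_eq_one h1)).imp fun _ h => h.2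
  rw [hc] at hwt
  have hc1' : 1 ≤ c := by
    by_contra h0
    have h1 : c = 0 := by omega
    rw [h1, pow_zero] at hwt
    omega
  have hz₀ : (w⁻¹ * (t * w * t⁻¹)) ^ p ^ (c - 1) ∉ Zc D (cz P) := by
    intro h1
    have h2 := com_pow hpr hDp hR.com hL0.bet hw ht (p ^ (c - 1)) (hZY h1)
    have h3 := orderOf_dvd_of_pow_eq_one h2
    rw [hc] at h3
    have h4 := Nat.le_of_dvd (pow_pos hpr.pos _) h3
    have h5 : p ^ (c - 1) < p ^ c := Nat.pow_lt_pow_right hpr.one_lt (by omega)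
    omega
  obtain ⟨hF1, -⟩ := hFFF p M hS G D x θ χ h P hP hSg
  have hd := hCQ p M hS G (cz P) D (Zc D (cz P)) θ ψ₀ x' hZD hDp hR.com hf3 hf2
    (fun z hz l hl => (Zc_mem.1 hz).2 l hl) hR.th hψ₀.1 hψ₀.2.symm hx' c hc1' ⟨_, hz₀D, hz₀⟩
  have hab : (Zc D (cz P)).relIndex D = (Zc D (cz P)).relIndex (YY M D θ) * (YY M D θ).relIndex D :=
    (Subgroup.relIndex_mul_relIndex _ _ _ hZY YY_le).symm
  have hcL : 1 ≤ Nat.card (cz P) := Nat.card_pos
  rw [hab] at hF1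
  have hleq : lL = iI M D θ := GN3 _ _ _ _ _ _ _ _ _ _ _ hi1 hz1 (hri _ _) hb1 hcL hy hyn hn1 hF1 hd hl1 hli
    (by exact_mod_cast hwt)
  have hYle : Nat.card (Zc D (cz P)) ≤ Nat.card (YY M D θ) := by
    rw [hy]
    exact Nat.le_mul_of_pos_right _ (hri _ _)
  have hnum2 : ∀ Z ≤ Zc D (cz P), ∀ l : Z →* ℂˣ,
      iI M D θ * (XL M (cz P) θ Z l).ncard * Nat.card Z =
      Nat.card (YY M D θ) * iI M D θ ^ 2 + (Nat.card D - Nat.card (YY M D θ)) := by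
    intro Z hZ l
    rw [hnum Z hZ l, hleq]
    have h1 : Nat.card (Zc D (cz P)) * iI M D θ * iI M D θ +
        (Nat.card (YY M D θ) - Nat.card (Zc D (cz P))) * iI M D θ ^ 2 =
        Nat.card (YY M D θ) * iI M D θ ^ 2 := by
      rw [mul_assoc, ← sq, ← add_mul, Nat.add_sub_cancel' hYle]
    rw [h1]
  refine ⟨fun Z hZ l => ?_, ?_, ?_⟩
  · have h1 := GN2 _ _ _ _ _ _ _ (Nat.card_pos (α := Z)) hb1 (hcard Z (YY M D θ) (hZ.trans hZY)) hyn (hnum2 Z hZ l)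
    rw [h1.1, Subgroup.relIndex_mul_relIndex _ _ _ (hZ.trans hZY) YY_le]
  · rw [hlL, hleq]
  · intro ψ hψ a ha
    let ψ' : Bl M (cz P) θ := ⟨ψ, hψ⟩
    obtain ⟨v, hv⟩ := hLAD.h5 ψ'
    obtain ⟨l₀, hl₀, hlv⟩ := hLEX p D hpr hcom hDp I hLAD.cop _ hfzZ v
    have hov : ∀ z ∈ (Zc D (cz P)).subgroupOf D, ∀ u, β ψ' (z * u) = lv l₀ z * β ψ' u := by
      intro z hz u
      have h1 := hv ⟨z, hz⟩ u
      have h2 := hlv ⟨z, hz⟩
      have h3 : lv v ⟨z, hz⟩ = lv l₀ z := by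
        unfold lv
        rw [← h2]
      rw [← h3]
      exact h1
    have heq : Nat.card I * {χ : Bl M (cz P) θ | ∀ z ∈ (Zc D (cz P)).subgroupOf D, ∀ u,
        β χ (z * u) = lv l₀ z * β χ u}.ncard =
        ((Zc D (cz P)).subgroupOf D).relIndex ((YY M D θ).subgroupOf D) *
          ((((YY M D θ).subgroupOf D).index - 1) + Nat.card I ^ 2) := by
      rw [hXl l₀, hI, hidx, hrel]
      exact (GN2 _ _ _ _ _ _ _ hz1 hb1 hy hyn (hnum2 _ le_rfl _)).2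
    obtain ⟨u₀, hu₀, hu₀Y⟩ := Set.not_subset.1 hL0.ny
    let v₀ : D := ⟨u₀, hu₀⟩
    have hv₀ : v₀ ∉ (YY M D θ).subgroupOf D := hu₀Y
    have h1 := hA.c3 l₀ hl₀ heq ψ' v₀ hov hv₀
    have hdint : IntAt M (dd M (Cz (cz P) v₀) θ ψ v₀) := IntAt.of_isIntegral hS (hLAD.h7 ψ' v₀ hv₀)
    have h2 : ¬ InM M (β ψ' v₀) := by
      rw [hLAD.h3a ψ' v₀ hv₀]
      intro h3
      have hnI : IntAt M ((n v₀ : ℤ) : ℂ) := IntAt.of_isIntegral hS (by
        have h9 : IsIntegral ℤ (algebraMap ℤ ℂ (n v₀)) := isIntegral_algebraMap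
        simpa using h9)
      rcases InM.or hS hnI hdint h3 with h4 | h4
      · apply hLAD.h3b v₀ hv₀
        have h5 : InM M ((n v₀ : ℤ) : ℂ) := h4
        exact (InM.intCast hS (n v₀)).1 h5
      · exact h1 h4
    let _ : CommGroup D := { (inferInstance : Group D) with mul_comm := hcom }
    have : Fintype D := Fintype.ofFinite _
    have h3 := (hLCO p M D (β ψ') hS hDp (hLAD.h1 ψ')).2.2 v₀
    obtain ⟨N, k, hN, hN0, hk, hvv⟩ := hdeg ψ'
    have h4 : ¬ p ∣ N := by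
      intro h5
      apply h2
      have h6 : InM M (β ψ' 1) := by
        rw [hN]
        exact (InM.natCast hS N).2 h5
      have h7 := InM.add hS h3 h6
      rw [sub_add_cancel] at h7
      exact h7
    refine ⟨k, hk, ?_⟩
    rw [padicValNat.eq_zero_of_not_dvd h4, ha, padicValNat.prime_pow] at hvv
    have h5 : ((padicValNat p (Nat.card (cz P)) : ℕ) : ℤ) = padicValNat p k + a := by
      exact_mod_cast (by omega : padicValNat p (Nat.card (cz P)) = padicValNat p k + a)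
    rw [h5]
    ring

end Pool.Agent.FI3
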