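import Mathlib
import Pool.Agent.helper12.FI3.GG3

/-!
# Project fi3 (MP_baa4d7_al): all blocks of the groups `cz P`, `P ≤ Y`
-/

set_option autoImplicit false

namespace Pool.Agent.FI3

open Pool.Agent.helper58.DC Pool.Agent.DI Pool.Agent.GR Pool.Agent.OB Pool.Agent.DR Pool.Agent.FI

theorem SG3 (hGG : GG3_stmt) : SG3_stmt := by
  intro p M hS hp G _ _ D x θ χ h hsm
  have key : ∀ n : ℕ, ∀ P ≤ YY M D θ, Nat.card (cz P) = n → Sg p M D (cz P) θ := by
    intro n
    induction n using Nat.strong_induction_on with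
    | _ n ih =>
      intro P hP hn
      have hPD : P ≤ D := hP.trans YY_le
      refine hGG p M hS hp G D x θ χ h hsm P hP fun Q hQ hlt => ih _ ?_ Q hQ rfl
      have h1 : cz Q ≤ cz P := by
        rw [← cz_Zc hPD]
        exact cz_mono hlt.le
      rw [← hn]
      have h2 : Nat.card (cz Q) ≤ Nat.card (cz P) := Subgroup.card_le_of_le h1
      refine lt_of_le_of_ne h2 fun h3 => ?_
      have h4 : cz Q = cz P := Subgroup.eq_of_le_of_card_ge h1 h3.ge
      apply hlt.not_ge
      intro u hu
      refine Zc_mem.2 ⟨YY_le (hQ hu), fun l hl => ?_⟩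
      rw [← h4, Subgroup.mem_centralizer_iff] at hl
      exact (hl u hu).symm
  exact fun P hP => key _ P hP rfl

end Pool.Agent.FI3
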